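import Pool.Agent.Y760.ST.Stm2
import Pool.Agent.Y810.ST.Z2Core

/-!
# Job ST-Z2 of helper760 (helper810)
-/

set_option autoImplicit false

namespace Pool.Agent.Y810.ST

theorem zz2 : Pool.Agent.Y760.ST.Z2Stmt := fun r l0 A c h1 hmul hne =>
  zcore2 r l0 A c h1 hmul hne

end Pool.Agent.Y810.ST
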